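import Pool.Agent.H45.UZ.TarF
import Pool.Agent.H72.UZ.TarW

/-! # MP_f6fd33_lc, module FR3a: a rich object over one object -/

set_option linter.unusedVariables false

open Ordinal Order Set
open scoped ZFSet

namespace SE.UZ

open SF

namespace H28a

/-- tagged tasks -/
noncomputable def tgg (n : ℕ) (X : V) : V :=
  imS X fun z => ZFSet.pair (ZFSet.pair (nS n) (fst z)) (snd z)

theorem tm_tgg (n : ℕ) : Tm ZFm (fun _ v => tgg n (v 0)) :=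
  Tm.image (f := fun _ v => v 0)
    (g := fun _ v => ZFSet.pair (ZFSet.pair (nS n) (fst (v 0))) (snd (v 0))) (Tm.var 0)
    (Tm.pair (Tm.pair (Tm.nS n) (Tm.fst (Tm.var 0))) (Tm.snd (Tm.var 0)))

theorem tm_c : Tm ZFm (fun _ v => resS (nS 1) fun _ => v 0) :=
  Tm.resS (f := fun _ _ => nS 1) (g := fun _ v => v 1) (Tm.nS 1) (Tm.var 1)

end H28a

open H28a in
theorem pf_FR3a (hFR1 : T_FR1) (hFRX : T_FRX) (hFRE : T_FRE) (hFRL : T_FRL) (hQSE : T_QSE)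
    (hQI1 : T_QI1) (hQI2 : T_QI2) (hQI3 : T_QI3) (hQRN : T_QRN) (hPDE : T_PDE) (hPDB : T_PDB)
    (hBO : T_BO) (hBK : T_BK) (hBL : T_BL) (hBC : T_BC) (hBD : T_BD) (hBJ : T_BJ) (hBR : T_BR)
    (hSM : T_SM) : T_FR3a := by
  intro D κ hA b hb B1 hB1 Z hZ
  have hD := hA.ok
  have kC : ZFCm D.N := hD.zfc.toZFCm
  have kN : ZFm D.N := kC.toZFm
  have hHN : ∀ x ∈ D.H, D.N x := fun x hx => kN.trans _ hD.hN x hx
  have hSl : Sl b.l b.S := fun e he => ⟨(hb.sl e he).1, by have := (hb.sl e he).2; omega⟩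
  have hcs : ∀ B ∈ b.Ob, CS D (b.u B) := hb.cs
  have hN : ∀ B ∈ b.Ob, D.N (b.u B) := fun B hB => hHN _ (hcs B hB).h
  have hTr : ∀ B ∈ b.Ob, Tr (b.u B) := fun B hB i hi => ((hcs B hB).c i hi).2
  have hcB1 : CS D (b.u B1) := hb.cs _ hB1.1
  obtain ⟨hR1, hR2, hR3, hR4, hR5, hR6, hRsq, hRhf, hRom, hRnS⟩ := hBR D hD
  obtain ⟨hS1, hS2, hS3⟩ := hSM
  obtain ⟨hS4, hS5, hS6⟩ := hS3 D hD
  have hprod : ∀ x ∈ D.H, ∀ y ∈ D.H, ZFSet.prod x y ∈ D.H := fun x hx y hy =>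
    (Tm.prod (Tm.var 0) (Tm.var 1)).1 (· ∈ D.H) hD.zfH (cons x fun _ => y)
      (In.cons (M := (· ∈ D.H)) (fun _ => hy) hx)
  obtain ⟨⟨E1, hE1N, hE1⟩, ⟨E2, hE2N, hE2⟩⟩ := hFRE D κ hA b hb B1 hB1
  obtain ⟨S, hSH, hSm⟩ := hA.nam (b.u B1) hcB1.h hcB1.c
  let E : V := tgg 0 E1 ∪ tgg 1 E2
  have hEN : D.N E := (Tm.union (f := fun _ v => tgg 0 (v 0)) (g := fun _ v => tgg 1 (v 1))
    (tm_tgg 0) (Tm.at1 (tm_tgg 1) (Tm.var 1))).1 D.N kN (cons E1 fun _ => E2)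
    (In.cons (fun _ => hE2N) hE1N)
  let J : V := sm (ZFSet.prod S S) S
  have hJH : J ∈ D.H := hS5 _ _ (hprod _ hSH _ hSH) hSH
  have hEm : ∀ z, z ∈ E ↔ (∃ w, b.T1 D B1 w ∧
      z = ZFSet.pair (ZFSet.pair (nS 0) (fst w)) (snd w)) ∨
      ∃ w, b.T2 D B1 w ∧ z = ZFSet.pair (ZFSet.pair (nS 1) (fst w)) (snd w) := by
    intro z
    rw [ZFSet.mem_union]
    unfold tgg
    rw [mem_imS, mem_imS]
    constructor
    · rintro (⟨w, hw, rfl⟩ | ⟨w, hw, rfl⟩)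
      · exact Or.inl ⟨w, (hE1 w).1 hw, rfl⟩
      · exact Or.inr ⟨w, (hE2 w).1 hw, rfl⟩
    · rintro (⟨w, hw, rfl⟩ | ⟨w, hw, rfl⟩)
      · exact Or.inl ⟨w, (hE1 w).2 hw, rfl⟩
      · exact Or.inr ⟨w, (hE2 w).2 hw, rfl⟩
  have hT : b.Tks D B1 J E := by
    refine ⟨hJH, hEN, fun z hz => ?_⟩
    rcases (hEm z).1 hz with ⟨w, ⟨a, x, B', r, ha, hx, ho, hle, hr, rfl, -⟩, rfl⟩ |
      ⟨w, ⟨v, B', hv, ho, hle, rfl, -⟩, rfl⟩
    · rw [fst_pair, snd_pair]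
      refine ⟨_, (hS1 _ _ _).2 (Or.inl ⟨ZFSet.pair a x, ?_, rfl⟩), B', r, rfl, ho, hle, hr⟩
      exact ZFSet.pair_mem_prod.2 ⟨(hSm a).2 ha, (hSm x).2 hx⟩
    · rw [fst_pair, snd_pair]
      exact ⟨_, (hS1 _ _ _).2 (Or.inr ⟨v, (hSm v).2 hv, rfl⟩), B', ∅, rfl, ho, hle,
        hBD.1 D.L _⟩
  obtain ⟨I, F, hIH, hFN, hF1, hF2, hF3⟩ := hFRX D κ hA b hb B1 hB1 J E hT Z hZ
  -- the family
  let C : V := resS (nS 1) fun _ => B1
  have h01 : nS 0 ∈ nS 1 := by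
    rw [nS_succ 0, ZFSet.mem_insert_iff]
    exact Or.inl rfl
  have hm1 : ∀ x ∈ nS 1, x = nS 0 := by
    intro x hx
    rw [nS_succ 0, ZFSet.mem_insert_iff] at hx
    rcases hx with h | h
    · exact h
    · rw [nS_zero] at h
      exact absurd h (ZFSet.notMem_empty x)
  have hNB1 : D.N B1 := kN.trans _ hb.nO _ hB1.1
  have hCN : D.N C := tm_c.1 D.N kN (fun _ => B1) (fun _ => hNB1)
  let I' : V := sm (nS 1) I
  let F' : V := sf (nS 1) I C F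
  have hI'H : I' ∈ D.H := hS5 _ _ (hRnS 1) hIH
  have hF'N : D.N F' := hS6 _ _ _ _ (hHN _ (hRnS 1)) (hHN _ hIH) hCN hFN
  have h0I : ZFSet.pair (nS 0) (nS 0) ∈ I' := (hS1 _ _ _).2 (Or.inl ⟨_, h01, rfl⟩)
  have hF'0 : app F' (ZFSet.pair (nS 0) (nS 0)) = B1 := by
    rw [(hS2 (nS 1) I C F).1 _ h01]
    exact app_resS h01
  have h1I : ∀ u ∈ I, ZFSet.pair (nS 1) u ∈ I' := fun u hu => (hS1 _ _ _).2 (Or.inr ⟨_, hu, rfl⟩)
  have hF'1 : ∀ u ∈ I, app F' (ZFSet.pair (nS 1) u) = app F u := fun u hu =>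
    (hS2 (nS 1) I C F).2 _ hu
  have hI' : ∀ v ∈ I', v = ZFSet.pair (nS 0) (nS 0) ∨ ∃ u ∈ I, v = ZFSet.pair (nS 1) u := by
    intro v hv
    rcases (hS1 _ _ _).1 hv with ⟨x, hx, rfl⟩ | ⟨u, hu, rfl⟩
    · exact Or.inl (by rw [hm1 x hx])
    · exact Or.inr ⟨u, hu, rfl⟩
  have hOf : ∀ v ∈ I', b.Of D (app F' v) ∧ b.Le B1 (app F' v) := by
    intro v hv
    rcases hI' v hv with rfl | ⟨u, hu, rfl⟩
    · rw [hF'0]
      exact ⟨hB1, hb.rfl _ hB1.1⟩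
    · rw [hF'1 u hu]
      exact ⟨(hF1 u hu).1, (hF1 u hu).2.1⟩
  have hAg : b.Ag D I' F' := by
    refine ⟨hF'N, hI'H, fun v hv => (hOf v hv).1.1, fun v hv w hw => ?_⟩
    by_cases hvw : v = w
    · subst hvw
      exact ⟨app F' v, hb.rfl _ (hOf v hv).1.1, hb.rfl _ (hOf v hv).1.1, by
        ext i
        simp⟩
    · refine ⟨B1, (hOf v hv).2, (hOf w hw).2, ?_⟩
      have s1 := (hb.leO _ _ (hOf v hv).2).2.2
      have s2 := (hb.leO _ _ (hOf w hw).2).2.2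
      rcases hI' v hv with rfl | ⟨u, hu, rfl⟩
      · ext i
        rw [ZFSet.mem_inter, hF'0]
        exact ⟨fun h => ⟨h, s2 h⟩, fun h => h.1⟩
      · rcases hI' w hw with rfl | ⟨u', hu', rfl⟩
        · ext i
          rw [ZFSet.mem_inter, hF'0]
          exact ⟨fun h => ⟨s1 h, h⟩, fun h => h.2⟩
        · rw [hF'1 u hu, hF'1 u' hu']
          exact (hF2 u hu u' hu' fun h => hvw (by rw [h])).symm
  obtain ⟨B, hBO', hBRi, hBk⟩ := hb.bd I' F' hAg Z hZ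
  have hBle : ∀ v ∈ I', b.Le (app F' v) B := fun v hv => (hb.rc _ _ (hBRi v hv)).1
  have hOB : b.Of D B := (hFR1 D κ hA b hb).2.1 I' F' hAg (fun v hv => (hOf v hv).1) B hBO' hBle
    fun k hk h => (hBk k hk h).1
  have hRi1 : b.Ri B1 B := by
    have := hBRi _ h0I
    rwa [hF'0] at this
  have hle1 : b.Le B1 B := (hb.rc _ _ hRi1).1
  have hleF : ∀ u ∈ I, b.Le (app F u) B := fun u hu => by
    have := hBle _ (h1I u hu)
    rwa [hF'1 u hu] at this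
  have hsub1 : b.u B1 ⊆ b.u B := (hb.leO _ _ hle1).2.2
  have hsubF : ∀ u ∈ I, b.u (app F u) ⊆ b.u B := fun u hu => (hb.leO _ _ (hleF u hu)).2.2
  have hcB := hcs B hBO'
  have hNB := hN B hBO'
  -- the pulled back filter
  have key : ∀ G, D.Gn (b.u B) G → ∀ t B' r, ZFSet.pair t (ZFSet.pair B' r) ∈ E →
      rst (b.u B1) r ∈ G → ∃ B2 r2, ZFSet.pair t (ZFSet.pair B2 r2) ∈ E ∧ b.Of D B2 ∧
        b.Le B1 B2 ∧ ∃ u ∈ I, ∃ π G2, Isl D b.l b.S π (b.u B2) (b.u (app F u)) ∧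
          Idn π (b.u B1) ∧ app F u = b.T π B2 ∧ D.Gn (b.u B2) G2 ∧ r2 ∈ G2 ∧
          gi D π (b.u (app F u)) G2 = gs G (b.u (app F u)) := by
    intro G hG t B' r hz hr
    obtain ⟨B2, r2, h1, u, hu, π, h2, h3, h4, h5⟩ :=
      hF3 (b.u B) hNB hcB.c hsubF hsub1 G hG t B' r hz hr
    obtain ⟨t', -, B2', r2', h6, h7, h8, h9⟩ := hT.e _ h1
    have h10 := (ZFSet.pair_inj.1 (ZFSet.pair_inj.1 h6).2)
    obtain ⟨h11, h12⟩ := h10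
    subst h11
    subst h12
    have hFu : app F u ∈ b.Ob := (hF1 u hu).1.1
    obtain ⟨hBLa, hBLb⟩ := hBL D hD (b.u B) G hNB hcB.c hG
    obtain ⟨hg1, hg2, -, hg3, hg4, -, -⟩ := hBLb (b.u (app F u)) (hN _ hFu) (hsubF u hu) (hTr _ hFu)
    obtain ⟨⟨-, -, him, -, hinv, -, hIi⟩, -, -, -, -⟩ := hQI1 D hD b.l b.S _ _ _ hSl h2
    have hG3 := hQI3 D hD b.l b.S _ _ _ hSl hIi (gs G (b.u (app F u))) hg1 _ rfl
    have hq := (hQI2 D hD b.l b.S _ _ _ hSl h2 (b.u B2) (hN _ h7.1) (fun _ h => h)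
      (hTr _ h7.1)).2 r2 h9
    rw [him] at hq
    refine ⟨B2, r2, h1, h7, h8, u, hu, π, gi D (inv π) (b.u B2) (gs G (b.u (app F u))), h2, h3,
      h4, hG3.1, ?_, ?_⟩
    · have := (hG3.2.2.2.1 (mv π r2) hq.1).2 ((hg3 _).2 ⟨h5, ((hBC.2.2.2.1 D.L _ _).1 hq.1).2.1⟩)
      rwa [hq.2.1] at this
    · have := hG3.2.2.1
      rwa [hinv] at this
  have hNe : ∀ (B' : V), B' ∈ b.Ob → b.Le B1 B' → ∀ G, D.Gn (b.u B') G → ∀ Y, D.N Y →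
      Nam D.L (b.u B1) Y → ∀ s, b.u B1 ⊆ s → ev (gs G s) Y = ev G Y := by
    intro B' hB' hle G hG Y hY hYn s hs
    exact ((hBK D hD (b.u B') G (hN _ hB') (hcs _ hB').c hG).1 (b.u B1) Y (hN _ hB1.1)
      (hb.leO _ _ hle).2.2 (hTr _ hB1.1) hY hYn).2.2.2.2.2 s hs
  refine ⟨B, hOB, hRi1, ?_, ?_, ?_⟩
  · -- F1
    intro G hG a x ha hx hns
    have hns' : ∃ B' G', b.Of D B' ∧ b.Xt D B1 (gs G (b.u B1)) B' G' ∧ b.Ss D B' G' a x :=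
      not_not.1 hns
    obtain ⟨B', G', hoB', hxt, hss⟩ := hns'
    have hQ := hQRN D hD (b.u B) G (b.u B1) hNB hcB.c hG (hN _ hB1.1) hsub1 (hTr _ hB1.1)
    obtain ⟨Ya, hYa, hYan, hYae⟩ := (hQ.1 a).1 ha
    obtain ⟨Yx, hYx, hYxn, hYxe⟩ := (hQ.1 x).1 hx
    have hsB' : b.u B1 ⊆ b.u B' := (hb.leO _ _ hxt.le).2.2
    have hval : ∀ Y, D.N Y → Nam D.L (b.u B1) Y → ev G' Y = ev G Y := by
      intro Y hY hYn
      rw [← hNe B' hoB'.1 hxt.le G' hxt.g Y hY hYn (b.u B1) (fun _ h => h), hxt.r,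
        hNe B hBO' hle1 G hG Y hY hYn (b.u B1) (fun _ h => h)]
    have hBO5 := (hBO D hD (b.u B') (hN _ hoB'.1) (hcs _ hoB'.1).c).2.2.2.2.2
    obtain ⟨Ya', hYa', hYan', hYae'⟩ := hBO5 (b.u B1) Ya (hN _ hB1.1) hsB' (hTr _ hB1.1) hYa hYan
    obtain ⟨Yx', hYx', hYxn', hYxe'⟩ := hBO5 (b.u B1) Yx (hN _ hB1.1) hsB' (hTr _ hB1.1) hYx hYxn
    have hemp : D.N (∅ : V) := kN.mempty
    have hdc := (hPDE D κ hA b hb 0 (by simpa using hemp) B' hoB'.1 ∅ 0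
      ⟨hemp, fun z hz => absurd hz (ZFSet.notMem_empty z)⟩ Ya' Yx' hYa' hYx' hYan' hYxn').2.2.2.1
    obtain ⟨r, hrG', hrP, hr⟩ := (hPDB D hD (b.u B') (hN _ hoB'.1) (hcs _ hoB'.1).c _ hdc).2.2.2.1
      G' hxt.g (by
        show b.Ss D B' G' (ev G' Ya') (ev G' Yx')
        rw [hYae' G' hxt.g, hYxe' G' hxt.g, hval Ya hYa hYan, hval Yx hYx hYxn, hYae, hYxe]
        exact hss)
    have hz : ZFSet.pair (ZFSet.pair (nS 0) (ZFSet.pair Ya Yx)) (ZFSet.pair B' r) ∈ E := by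
      refine (hEm _).2 (Or.inl ⟨ZFSet.pair (ZFSet.pair Ya Yx) (ZFSet.pair B' r), ?_, ?_⟩)
      · refine ⟨Ya, Yx, B', r, ⟨hYa, hYan⟩, ⟨hYx, hYxn⟩, hoB', hxt.le, hrP, rfl, ?_⟩
        intro G'' hG'' hrG''
        have := hr G'' hG'' hrG''
        rwa [hYae' G'' hG'', hYxe' G'' hG''] at this
      · rw [fst_pair, snd_pair]
    have hrst : rst (b.u B1) r ∈ G := by
      obtain ⟨-, hBLb⟩ := hBL D hD (b.u B') G' (hN _ hoB'.1) (hcs _ hoB'.1).c hxt.g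
      have h1 := (hBLb (b.u B1) (hN _ hB1.1) hsB' (hTr _ hB1.1)).2.2.2.2.1 r hrG'
      rw [hxt.r] at h1
      obtain ⟨-, hBLc⟩ := hBL D hD (b.u B) G hNB hcB.c hG
      exact (hBLc (b.u B1) (hN _ hB1.1) hsub1 (hTr _ hB1.1)).2.1 h1
    obtain ⟨B2, r2, h1, hoB2, hle2, u, hu, π, G2, h2, h3, h4, h5, h6, h7⟩ := key G hG _ _ _ hz hrst
    have hFu : app F u ∈ b.Ob := (hF1 u hu).1.1
    have hfor : ∀ G, D.Gn (b.u B2) G → r2 ∈ G → b.Ss D B2 G (ev G Ya) (ev G Yx) := by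
      rcases (hEm _).1 h1 with ⟨w, ⟨a', x', B'', r', -, -, -, -, -, rfl, h8⟩, h9⟩ | ⟨w, -, h9⟩
      · rw [fst_pair, snd_pair] at h9
        obtain ⟨h10, h11⟩ := ZFSet.pair_inj.1 h9
        obtain ⟨h12, h13⟩ := ZFSet.pair_inj.1 h11
        obtain ⟨h14, h15⟩ := ZFSet.pair_inj.1 (ZFSet.pair_inj.1 h10).2
        subst h12 h13 h14 h15
        exact h8
      · have h10 := (ZFSet.pair_inj.1 (ZFSet.pair_inj.1 h9).1).1
        exact absurd (nS_inj.1 h10) (by omega)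
    have hsb2 : b.u B1 ⊆ b.u B2 := (hb.leO _ _ hle2).2.2
    have hv2 : ∀ Y, D.N Y → Nam D.L (b.u B1) Y → ev G2 Y = ev G Y := by
      intro Y hY hYn
      have h8 := ((hQI3 D hD b.l b.S _ _ _ hSl h2 G2 h5 _ rfl).2.2.2.2.2 (b.u B1) (hN _ hB1.1)
        hsb2 (hTr _ hB1.1)).2.2.2.2 h3
      rw [h7] at h8
      rw [← h8.2.2 Y hY hYn]
      exact hNe B hBO' hle1 G hG Y hY hYn _ (hb.leO _ _ (hF1 u hu).2.1).2.2
    have hs2 := hfor G2 h5 h6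
    rw [hv2 Ya hYa hYan, hv2 Yx hYx hYxn, hYae, hYxe] at hs2
    have hq1 := (hQSE D κ hA b hb B2 hoB2.1 (b.u B2) (hN _ hoB2.1) (hcs _ hoB2.1).c
      (fun _ h => h) G2 h5).2.2.2 π (b.u (app F u)) h2 h5
    have hs3 := (hq1.1 a x).1 hs2
    rw [h7, ← h4] at hs3
    have hq2 := (hQSE D κ hA b hb (app F u) hFu (b.u B) hNB hcB.c (hsubF u hu) G hG).1 a x
    have hs4 := hq2.2.2.1.2 hs3
    exact ((hQSE D κ hA b hb B hBO' (b.u B) hNB hcB.c (fun _ h => h) G hG).2.2.1 (app F u)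
      (hleF u hu)).2.1 a x hx.2 hs4
  · -- F2
    intro G hG v hv hnp
    have hQ := hQRN D hD (b.u B) G (b.u B1) hNB hcB.c hG (hN _ hB1.1) hsub1 (hTr _ hB1.1)
    obtain ⟨Y, hY, hYn, hYe⟩ := (hQ.1 v).1 hv
    obtain ⟨B', hB'⟩ := hFRL D κ hA b hb B1 hB1 Y hY hYn
    have hz : ZFSet.pair (ZFSet.pair (nS 1) Y) (ZFSet.pair B' ∅) ∈ E := by
      refine (hEm _).2 (Or.inr ⟨ZFSet.pair Y (ZFSet.pair B' ∅), hB', ?_⟩)
      rw [fst_pair, snd_pair]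
    have hrst : rst (b.u B1) ∅ ∈ G := by
      have : rst (b.u B1) (∅ : V) = ∅ := by
        ext z
        simp [rst]
      rw [this]
      exact ((hBJ D hD).2.2.2.2 (b.u B) hNB hcB.c).2 G hG |>.2.1.2.1
    obtain ⟨B2, r2, h1, hoB2, hle2, u, hu, π, G2, h2, h3, h4, h5, h6, h7⟩ := key G hG _ _ _ hz hrst
    have hFu : app F u ∈ b.Ob := (hF1 u hu).1.1
    have hfor : ∃ i ∈ b.u B2, kd i = nS b.l ∧ ∀ G, D.Gn (b.u B2) G →
        (∀ k ∈ b.u B1, kd k = nS (b.l + 1) → ev G Y ≠ prm G k) → ev G (lZ i) = ev G Y := by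
      rcases (hEm _).1 h1 with ⟨w, -, h9⟩ | ⟨w, ⟨v', B'', -, -, -, rfl, h8⟩, h9⟩
      · have h10 := (ZFSet.pair_inj.1 (ZFSet.pair_inj.1 h9).1).1
        exact absurd (nS_inj.1 h10) (by omega)
      · rw [fst_pair, snd_pair] at h9
        obtain ⟨h10, h11⟩ := ZFSet.pair_inj.1 h9
        obtain ⟨h12, h13⟩ := ZFSet.pair_inj.1 h11
        have h14 := (ZFSet.pair_inj.1 h10).2
        subst h12 h13 h14
        exact h8
    obtain ⟨i2, hi2, hki, hfor⟩ := hfor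
    have hsb2 : b.u B1 ⊆ b.u B2 := (hb.leO _ _ hle2).2.2
    have hq3 := hQI3 D hD b.l b.S _ _ _ hSl h2 G2 h5 _ rfl
    rw [h7] at hq3
    have hv2 : ev G2 Y = v := by
      have h8 := (hq3.2.2.2.2.2 (b.u B1) (hN _ hB1.1) hsb2 (hTr _ hB1.1)).2.2.2.2 h3
      rw [← h8.2.2 Y hY hYn, ← hYe]
      exact hNe B hBO' hle1 G hG Y hY hYn _ (hb.leO _ _ (hF1 u hu).2.1).2.2
    have hQF := hQRN D hD (b.u B) G (b.u (app F u)) hNB hcB.c hG (hN _ hFu) (hsubF u hu)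
      (hTr _ hFu)
    have hQl := hQF.2.2.2.2.2.2.2.2.2.2.2.2.2.2
    have himem : app π i2 ∈ b.u (app F u) :=
      ((hQI1 D hD b.l b.S _ _ _ hSl h2).2.1 i2 hi2).1
    refine ⟨app π i2, hsubF u hu himem, ?_, ?_⟩
    · exact (h2.k i2 hi2 b.l hb.l3 le_rfl).1 hki
    · have h8 := hfor G2 h5 (by
        intro k hk hkk
        rw [hv2]
        have h9 := (hq3.2.2.2.2.1 k (hsb2 hk)).2.2
        rw [h3 k hk] at h9
        rw [← h9, (hQl k ((hb.leO _ _ (hF1 u hu).2.1).2.2 hk)).1]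
        exact hnp k hk hkk)
      rw [hv2] at h8
      rw [← h8, ← (hQl _ himem).2.1]
      exact (hq3.2.2.2.2.1 i2 hi2).2.1
  · -- the new labels
    intro k hk hk1
    by_cases hex : ∃ v ∈ I', k ∈ b.u (app F' v)
    · obtain ⟨v, hv, hkv⟩ := hex
      rcases hI' v hv with rfl | ⟨u, hu, rfl⟩
      · rw [hF'0] at hkv
        exact absurd hkv hk1
      · rw [hF'1 u hu] at hkv
        exact (hF1 u hu).2.2 k hkv hk1
    · push Not at hex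
      obtain ⟨⟨e, he, hke⟩, hkZ⟩ := hBk k hk hex
      exact ⟨⟨e, by omega, hke⟩, hkZ⟩

end SE.UZ
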