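import Pool.Agent.H45.UZ.TarF

/-! # MP_f6fd33_lc, module FRX: generic families of disjoint copies of objects -/

set_option linter.unusedVariables false

open Ordinal Order Set
open scoped ZFSet

namespace SE.UZ

open SF

namespace H28x

theorem tm_I0 (hrst : Tm ZFm (fun _ v => rst (v 0) (v 1))) :
    Tm ZFm (fun _ v => imS (v 0) fun z => ZFSet.pair (fst z) (rst (v 1) (snd (snd z)))) :=
  Tm.image (f := fun _ v => v 0)
    (g := fun _ v => ZFSet.pair (fst (v 0)) (rst (v 2) (snd (snd (v 0))))) (Tm.var 0)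
    (Tm.pair (Tm.fst (Tm.var 0)) (Tm.at2 hrst (Tm.var 2) (Tm.snd (Tm.snd (Tm.var 0)))))

theorem tm_E0 : Tm ZFm (fun _ v => resS (v 0) fun w => fst (app (v 1) (fst w))) :=
  Tm.resS (f := fun _ v => v 0) (g := fun _ v => fst (app (v 2) (fst (v 0)))) (Tm.var 0)
    (Tm.fst (Tm.app (Tm.var 2) (Tm.fst (Tm.var 0))))

theorem tm_Q (hmv : Tm ZFm (fun _ v => mv (v 0) (v 1))) :
    Tm ZFm (fun _ v => imS om fun n => mv (app (v 0) (ZFSet.pair (v 1) n)) (v 2)) :=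
  Tm.image (f := fun _ _ => om) (g := fun _ v => mv (app (v 1) (ZFSet.pair (v 2) (v 0))) (v 3))
    Tm.om (Tm.at2 hmv (Tm.app (Tm.var 1) (Tm.pair (Tm.var 2) (Tm.var 0))) (Tm.var 3))

theorem dfb_R (hrst : Tm ZFm (fun _ v => rst (v 0) (v 1))) :
    Dfb ZFm (fun _ v => ZFSet.pair (fst (v 0)) (v 1) ∈ v 2 ∧ rst (v 3) (snd (v 1)) = snd (v 0)) :=
  (Dfb.mem (Tm.pair (Tm.fst (Tm.var 0)) (Tm.var 1)) (Tm.var 2)).and
    (Dfb.eq (Tm.at2 hrst (Tm.var 3) (Tm.snd (Tm.var 1))) (Tm.snd (Tm.var 0)))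

theorem kl_kct (l : ℕ) (e i : V) (h : kd i = kct l e) : Kl (l + 1) i := by
  unfold kct sel at h
  split_ifs at h with h1
  · obtain ⟨n, h3, hn, he⟩ := h1
    exact ⟨n, by omega, by rw [h, he]⟩
  · exact ⟨0, by omega, h⟩

end H28x

open H28x in
theorem pf_FRX (hFR1 : T_FR1) (hQC1 : T_QC1) (hQC3 : T_QC3) (hQI2 : T_QI2) (hTBa : T_TBa)
    (hCH : T_CH) (hBBa : T_BBa) (hBBc : T_BBc) (hBC : T_BC) (hBD : T_BD) (hBR : T_BR) : T_FRX := by
  intro D κ hA b hb B1 hB1 J E hT Z hZ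
  have hD := hA.ok
  have kC : ZFCm D.N := hD.zfc.toZFCm
  have kN : ZFm D.N := kC.toZFm
  have hHN : ∀ x ∈ D.H, D.N x := fun x hx => kN.trans _ hD.hN x hx
  have hSl : Sl b.l b.S := fun e he => ⟨(hb.sl e he).1, by have := (hb.sl e he).2; omega⟩
  have hcB1 : CS D (b.u B1) := hb.cs _ hB1.1
  have hN1 : D.N (b.u B1) := hHN _ hcB1.h
  have hTr1 : Tr (b.u B1) := fun i hi => (hcB1.c i hi).2
  obtain ⟨hR1, hR2, hR3, hR4, hR5, hR6, hRsq, hRhf, hRom, hRnS⟩ := hBR D hD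
  obtain ⟨hC1, hC2, hC3, hC4, hC5, hC6, hC7, hC8, -, -, -⟩ := hBC
  obtain ⟨hD1, hD2, hD3, hD4, hD5, hD6, hD7, hD8⟩ := hBD
  obtain ⟨hT1, hT2, hT3, hT4, hT5, hT6⟩ := hTBa
  -- the index set
  let I0 : V := imS E fun z => ZFSet.pair (fst z) (rst (b.u B1) (snd (snd z)))
  have hI0N : D.N I0 := (tm_I0 hBBa.1).1 D.N kN (cons E fun _ => b.u B1)
    (In.cons (fun _ => hN1) hT.n)
  have hI0s : I0 ⊆ ZFSet.prod J (D.P (b.u B1)) := by
    intro w hw
    obtain ⟨z, hz, rfl⟩ := mem_imS.1 hw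
    obtain ⟨t, ht, B', r, rfl, ho, hle, hr⟩ := hT.e z hz
    rw [fst_pair, snd_pair, snd_pair, ZFSet.pair_mem_prod]
    exact ⟨ht, (hD3 D.L _ _ r hr fun i hi _ => hTr1 i hi).1⟩
  have hprod : ∀ x ∈ D.H, ∀ y ∈ D.H, ZFSet.prod x y ∈ D.H := fun x hx y hy =>
    (Tm.prod (Tm.var 0) (Tm.var 1)).1 (· ∈ D.H) hD.zfH (cons x fun _ => y)
      (In.cons (M := (· ∈ D.H)) (fun _ => hy) hx)
  have hI0H : I0 ∈ D.H :=
    hR1 _ _ hI0N (hprod _ hT.h _ (hR5 _ hcB1.h).1) hI0s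
  let I : V := ZFSet.prod I0 om
  have hIH : I ∈ D.H := hprod _ hI0H _ hRom
  -- the choice function
  obtain ⟨f, hfN, hfS, hfd, hf⟩ := hCH _ (dfb_R hBBa.1) D.N kC (cons E fun _ => b.u B1)
    (In.cons (fun _ => hN1) hT.n) I0 hI0N (by
      intro w hw
      obtain ⟨z, hz, rfl⟩ := mem_imS.1 hw
      obtain ⟨t, ht, B', r, rfl, ho, hle, hr⟩ := hT.e z hz
      have hzN := kN.trans _ hT.n _ hz
      refine ⟨ZFSet.pair B' r, (ZFm.of_pair kN hzN).2, ?_⟩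
      show ZFSet.pair (fst (ZFSet.pair (fst (ZFSet.pair t (ZFSet.pair B' r)))
        (rst (b.u B1) (snd (snd (ZFSet.pair t (ZFSet.pair B' r))))))) (ZFSet.pair B' r) ∈ E ∧
        rst (b.u B1) (snd (ZFSet.pair B' r)) = snd (ZFSet.pair (fst (ZFSet.pair t
          (ZFSet.pair B' r))) (rst (b.u B1) (snd (snd (ZFSet.pair t (ZFSet.pair B' r))))))
      simp only [fst_pair, snd_pair]
      exact ⟨hz, trivial⟩)
  have hfz : ∀ z ∈ I0, ∃ B2 r2, app f z = ZFSet.pair B2 r2 ∧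
      ZFSet.pair (fst z) (ZFSet.pair B2 r2) ∈ E ∧ b.Of D B2 ∧ b.Le B1 B2 ∧ r2 ∈ D.P (b.u B2) ∧
      rst (b.u B1) r2 = snd z := by
    intro z hz
    have h1 : ZFSet.pair (fst z) (app f z) ∈ E ∧ rst (b.u B1) (snd (app f z)) = snd z := hf z hz
    obtain ⟨t, ht, B', r, h2, ho, hle, hr⟩ := hT.e _ h1.1
    obtain ⟨h3, h4⟩ := ZFSet.pair_inj.1 h2
    refine ⟨B', r, h4, ?_, ho, hle, hr, ?_⟩
    · rw [← h4]; exact h1.1
    · have := h1.2
      rwa [h4, snd_pair] at this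
  -- the family
  let E0 : V := resS I fun w => fst (app f (fst w))
  have hE0N : D.N E0 := tm_E0.1 D.N kN (cons I fun _ => f) (In.cons (fun _ => hfN) (hHN _ hIH))
  have hIm : ∀ w ∈ I, ∃ z ∈ I0, ∃ n ∈ om, w = ZFSet.pair z n := by
    intro w hw
    obtain ⟨z, hz, n, hn, rfl⟩ := ZFSet.mem_prod.1 hw
    exact ⟨z, hz, n, hn, rfl⟩
  have hE0v : ∀ z ∈ I0, ∀ n ∈ om, app E0 (ZFSet.pair z n) = fst (app f z) := by
    intro z hz n hn
    have : ZFSet.pair z n ∈ I := ZFSet.pair_mem_prod.2 ⟨hz, hn⟩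
    show app (resS I fun w => fst (app f (fst w))) (ZFSet.pair z n) = _
    rw [app_resS this, fst_pair]
  have hE0o : ∀ w ∈ I, b.Of D (app E0 w) ∧ b.Le B1 (app E0 w) := by
    intro w hw
    obtain ⟨z, hz, n, hn, rfl⟩ := hIm w hw
    obtain ⟨B2, r2, h1, h2, h3, h4, h5, h6⟩ := hfz z hz
    rw [hE0v z hz n hn, h1, fst_pair]
    exact ⟨h3, h4⟩
  obtain ⟨R, P, F, hRN, hFN, hRv, hP, hF⟩ := hQC1 D κ hA b hb B1 Z I E0 D.H hB1.1 hZ hIH hE0N
    (fun w hw => (hE0o w hw).2) (Or.inr rfl)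
  have hIsl : ∀ w ∈ I, Isl D b.l b.S (app P w) (b.u (app E0 w)) (b.u (app F w)) := by
    intro w hw
    have := hP.i w hw
    rwa [hRv w hw, ← (hF w hw).2.2.2] at this
  have hu : ∀ w ∈ I, ∀ k ∈ b.u (app F w), k ∉ b.u B1 →
      ∃ i ∈ b.u (app E0 w), i ∉ b.u B1 ∧ app (app P w) i = k := by
    intro w hw k hk hk1
    rw [(hF w hw).2.2.2, hT2] at hk
    obtain ⟨i, hi, rfl⟩ := hk
    refine ⟨i, hi, fun h => hk1 ?_, rfl⟩
    rw [hP.d w hw i h]
    exact h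
  have hdis : ∀ w ∈ I, ∀ w' ∈ I, w ≠ w' → ∀ i ∈ b.u (app F w), i ∈ b.u (app F w') →
      i ∈ b.u B1 := by
    intro w hw w' hw' hne i hi hi'
    refine hP.j w hw w' hw' hne i ?_ ?_
    · rwa [hRv w hw, ← (hF w hw).2.2.2]
    · rwa [hRv w' hw', ← (hF w' hw').2.2.2]
  refine ⟨I, F, hIH, hFN, ?_, ?_, ?_⟩
  · intro w hw
    obtain ⟨ho, hle⟩ := hE0o w hw
    refine ⟨?_, (hF w hw).2.1, ?_⟩
    · rw [(hF w hw).1]
      refine (hFR1 D κ hA b hb).2.2.2.2 _ B1 _ _ ho hle (hIsl w hw) (hP.d w hw) ?_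
      intro i hi hi1
      exact (hP.k w hw i (by rwa [hRv w hw]) hi1).1
    · intro k hk hk1
      obtain ⟨i, hi, hi1, rfl⟩ := hu w hw k hk hk1
      have hi' : i ∈ app R w := by rwa [hRv w hw]
      exact ⟨kl_kct _ _ _ (hP.k w hw i hi' hi1).1, (hP.z w hw i hi' hi1).2⟩
  · intro w hw w' hw' hne
    ext i
    rw [ZFSet.mem_inter]
    exact ⟨fun h => hdis w hw w' hw' hne i h.1 h.2, fun h =>
      ⟨(hb.leO _ _ (hF w hw).2.1).2.2 h, (hb.leO _ _ (hF w' hw').2.1).2.2 h⟩⟩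
  · intro ρ hρN hρc hFρ h1ρ G hG t B' r hz hr
    set z : V := ZFSet.pair t (rst (b.u B1) r) with hzdef
    have hzI : z ∈ I0 := by
      refine mem_imS.2 ⟨_, hz, ?_⟩
      rw [fst_pair, snd_pair, snd_pair]
    obtain ⟨B2, r2, h1, h2, h3, h4, h5, h6⟩ := hfz z hzI
    rw [hzdef, fst_pair] at h2
    rw [hzdef, snd_pair] at h6
    have hwI : ∀ n ∈ om, ZFSet.pair z n ∈ I := fun n hn => ZFSet.pair_mem_prod.2 ⟨hzI, hn⟩
    have hB2 : ∀ n ∈ om, app E0 (ZFSet.pair z n) = B2 := fun n hn => by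
      rw [hE0v z hzI n hn, h1, fst_pair]
    have hiso : ∀ n ∈ om, Isl D b.l b.S (app P (ZFSet.pair z n)) (b.u B2)
        (b.u (app F (ZFSet.pair z n))) := fun n hn => by
      have := hIsl _ (hwI n hn)
      rwa [hB2 n hn] at this
    have hFT : ∀ n ∈ om, app F (ZFSet.pair z n) = b.T (app P (ZFSet.pair z n)) B2 := fun n hn => by
      have := (hF _ (hwI n hn)).1
      rwa [hB2 n hn] at this
    have hfin : ∀ n ∈ om, mv (app P (ZFSet.pair z n)) r2 ∈ G → ∃ B2 r2,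
        ZFSet.pair t (ZFSet.pair B2 r2) ∈ E ∧ ∃ u ∈ I, ∃ π,
          Isl D b.l b.S π (b.u B2) (b.u (app F u)) ∧ Idn π (b.u B1) ∧
          app F u = b.T π B2 ∧ mv π r2 ∈ G := fun n hn hm =>
      ⟨B2, r2, h2, ZFSet.pair z n, hwI n hn, app P (ZFSet.pair z n), hiso n hn,
        hP.d _ (hwI n hn), hFT n hn, hm⟩
    have hcs2 := hb.cs B2 h3.1
    have hTr2 : Tr (b.u B2) := fun i hi => (hcs2.c i hi).2
    have hr2 := (hC4 D.L (b.u B2) r2).1 h5
    have hsub12 : b.u B1 ⊆ b.u B2 := (hb.leO _ _ h4).2.2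
    have h0om : nS 0 ∈ om := mem_om.2 ⟨0, rfl⟩
    by_cases hdm : dm r2 ⊆ b.u B1
    · refine hfin (nS 0) h0om ?_
      rw [(hT5 _ _ (hP.d _ (hwI _ h0om))).2 r2 hr2.1 hdm]
      have : rst (b.u B1) r2 = r2 := (hC5 (b.u B1) r2 hr2.1).2.2.2 hdm
      rw [this] at h6
      rw [h6]
      exact hr
    · obtain ⟨i0, hi0, hi01⟩ : ∃ i0 ∈ dm r2, i0 ∉ b.u B1 := by
        by_contra hcon
        push Not at hcon
        exact hdm fun i hi => hcon i hi
      have hi02 : i0 ∈ b.u B2 := hr2.2.1 hi0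
      have hijo : ∀ n ∈ om, Ijo (app P (ZFSet.pair z n)) (b.u B2) := fun n hn =>
        (hiso n hn).i.i.inj
      have himu : ∀ n ∈ om, im (app P (ZFSet.pair z n)) (b.u B2) =
          b.u (app F (ZFSet.pair z n)) := fun n hn => by
        have := (hF _ (hwI n hn)).2.2.2
        rw [hB2 n hn] at this
        exact this.symm
      -- the copies of the condition
      have hdmq : ∀ n ∈ om, dm (mv (app P (ZFSet.pair z n)) r2) ⊆
          b.u (app F (ZFSet.pair z n)) := by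
        intro n hn k hk
        rw [(hT1 _ _ (hijo n hn) r2 hr2.1 hr2.2.1).2.1, hT2] at hk
        obtain ⟨i, hi, rfl⟩ := hk
        rw [← himu n hn, hT2]
        exact ⟨i, hr2.2.1 hi, rfl⟩
      have hinj : ∀ n ∈ om, ∀ m ∈ om, mv (app P (ZFSet.pair z n)) r2 =
          mv (app P (ZFSet.pair z m)) r2 → n = m := by
        intro n hn m hm hnm
        by_contra hne
        have hne' : ZFSet.pair z n ≠ ZFSet.pair z m := fun h => hne (ZFSet.pair_inj.1 h).2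
        have hk : app (app P (ZFSet.pair z n)) i0 ∈ dm (mv (app P (ZFSet.pair z n)) r2) :=
          (((hT1 _ _ (hijo n hn) r2 hr2.1 hr2.2.1).2.2.1 i0 hi02).1).2 hi0
        have hk2 : app (app P (ZFSet.pair z n)) i0 ∈ b.u B1 := by
          refine hdis _ (hwI n hn) _ (hwI m hm) hne' _ (hdmq n hn hk) (hdmq m hm ?_)
          rw [← hnm]
          exact hk
        refine (hP.z _ (hwI n hn) i0 ?_ hi01).1 hk2
        rw [hRv _ (hwI n hn), hB2 n hn]
        exact hi02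
      let Q : V := imS om fun n => mv (app P (ZFSet.pair z n)) r2
      have hr2N : D.N r2 := by
        have := kN.trans _ hT.n _ h2
        exact (ZFm.of_pair kN (ZFm.of_pair kN this).2).2
      have hQN : D.N Q := (tm_Q hBBc.2.2.1).1 D.N kN (cons P (cons z fun _ => r2))
        (In.cons (In.cons (fun _ => hr2N) (kN.trans _ hI0N _ hzI)) hP.n)
      obtain ⟨q, hq, hqG⟩ := hQC3 D hD ρ (b.u B1) G Q (rst (b.u B1) r) hρN hρc hG h1ρ hN1 hTr1
        hQN (by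
          intro q hq
          obtain ⟨n, hn, rfl⟩ := mem_imS.1 hq
          have h7 := ((hQI2 D hD b.l b.S _ _ _ hSl (hiso n hn) (b.u B2) (hHN _ hcs2.h)
            (fun _ h => h) hTr2).2 r2 h5).1
          exact hD2 _ _ _ _ h7 fun k hk => hFρ _ (hwI n hn) (hdmq n hn hk)) (by
          intro q hq
          obtain ⟨n, hn, rfl⟩ := mem_imS.1 hq
          have h7 := (hT1 _ _ (hijo n hn) r2 hr2.1 hr2.2.1).2.2.2.2 (b.u B1) hsub12
          rw [(hT5 _ _ (hP.d _ (hwI n hn))).1] at h7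
          show rst (b.u B1) (mv (app P (ZFSet.pair z n)) r2) = _
          rw [h7, ← h6]
          obtain ⟨h8, h9, -, -⟩ := hC5 (b.u B1) r2 hr2.1
          exact (hT5 _ _ (hP.d _ (hwI n hn))).2 _ h8 fun i hi => ((h9 i).1 hi).2) (by
          intro q hq q' hq' hne i hi hi'
          obtain ⟨n, hn, rfl⟩ := mem_imS.1 hq
          obtain ⟨m, hm, rfl⟩ := mem_imS.1 hq'
          refine hdis _ (hwI n hn) _ (hwI m hm) ?_ i (hdmq n hn hi) (hdmq m hm hi')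
          intro h
          exact hne (by rw [h])) (by
          intro hfinQ
          have : Function.Injective (fun n : ℕ => (⟨mv (app P (ZFSet.pair z (nS n))) r2,
              mem_imS.2 ⟨nS n, mem_om.2 ⟨n, rfl⟩, rfl⟩⟩ : {q // q ∈ Q})) := by
            intro n m hnm
            exact nS_inj.1 (hinj _ (mem_om.2 ⟨n, rfl⟩) _ (mem_om.2 ⟨m, rfl⟩)
              (Subtype.ext_iff.1 hnm))
          have hfQ : Finite {q // q ∈ Q} := hfinQ
          exact not_injective_infinite_finite _ this) hr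
      obtain ⟨n, hn, rfl⟩ := mem_imS.1 hq
      exact hfin n hn hqG

end SE.UZ
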